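import Pool.Agent.Y294.FO.Stm

/-! FO-CONST : quadratically small differences on the sphere (helper908). -/

set_option autoImplicit false

open Set Metric Filter Topology
open scoped RealInnerProductSpace

namespace Pool.Agent.Y908.FO.CONST

open Pool.Agent.Y294.FO

section
variable {E : Type*} [NormedAddCommGroup E] [InnerProductSpace ℝ E]

theorem nsq (u w : E) (hu : ‖u‖ = 1) (hw : ‖w‖ = 1) (huw : ⟪u, w⟫ = 0) (a b : ℝ) :
    ‖a • u + b • w‖ ^ 2 = a ^ 2 + b ^ 2 := by
  rw [norm_add_sq_real, inner_smul_left, inner_smul_right, huw, norm_smul, norm_smul, hu, hw,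
    Real.norm_eq_abs, Real.norm_eq_abs, mul_one, mul_one, sq_abs, sq_abs, mul_zero, mul_zero,
    mul_zero, add_zero]

theorem circ (L : E → ℝ) (hL : ∀ u0 : E, ‖u0‖ = 1 → ∃ C δ : ℝ, 0 < C ∧ 0 < δ ∧
      ∀ u : E, ‖u‖ = 1 → ‖u - u0‖ < δ → |L u - L u0| ≤ C * ‖u - u0‖ ^ 2)
    (u w : E) (hu : ‖u‖ = 1) (hw : ‖w‖ = 1) (huw : ⟪u, w⟫ = 0) (a : ℝ) :
    L (Real.cos a • u + Real.sin a • w) = L u := by
  set c : ℝ → E := fun s => Real.cos s • u + Real.sin s • w with hc
  have hc1 : ∀ s, ‖c s‖ = 1 := by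
    intro s
    have h1 : ‖c s‖ ^ 2 = 1 := by
      rw [hc]
      simp only
      rw [nsq u w hu hw huw, Real.cos_sq_add_sin_sq]
    have h2 := norm_nonneg (c s)
    nlinarith
  have hc2 : ∀ s t, ‖c s - c t‖ ^ 2 ≤ (s - t) ^ 2 := by
    intro s t
    have h1 : c s - c t = (Real.cos s - Real.cos t) • u + (Real.sin s - Real.sin t) • w := by
      rw [hc]; simp only; module
    rw [h1, nsq u w hu hw huw]
    have h2 := Real.one_sub_sq_div_two_le_cos (x := s - t)
    rw [Real.cos_sub] at h2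
    have h3 := Real.cos_sq_add_sin_sq s
    have h4 := Real.cos_sq_add_sin_sq t
    nlinarith
  have hc3 : ∀ s t, ‖c s - c t‖ ≤ |s - t| := by
    intro s t
    have := hc2 s t
    exact abs_le_of_sq_le_sq' (by rwa [← sq_abs (s - t)] at this) (abs_nonneg _) |>.2
  have hder : ∀ t, HasDerivAt (fun s => L (c s)) 0 t := by
    intro t
    obtain ⟨C, δ, hC, hδ, hCδ⟩ := hL (c t) (hc1 t)
    have h1 : (fun s => L (c s) - L (c t)) =O[𝓝 t] fun s => ‖s - t‖ ^ 2 := by
      apply Asymptotics.IsBigO.of_bound C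
      have h2 : ∀ᶠ s in 𝓝 t, |s - t| < δ := by
        have := Metric.ball_mem_nhds t hδ
        filter_upwards [this] with s hs
        rwa [Metric.mem_ball, Real.dist_eq] at hs
      filter_upwards [h2] with s hs
      have h3 := hCδ (c s) (hc1 s) (lt_of_le_of_lt (hc3 s t) hs)
      rw [Real.norm_of_nonneg (show (0 : ℝ) ≤ ‖s - t‖ ^ 2 by positivity), Real.norm_eq_abs,
        Real.norm_eq_abs, sq_abs]
      exact h3.trans (mul_le_mul_of_nonneg_left (hc2 s t) hC.le)
    have h2 := h1.hasFDerivAt (𝕜 := ℝ) (by norm_num)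
    have h3 : HasDerivAt (fun s => L (c s) - L (c t)) 0 t := by
      have := h2.hasDerivAt
      simpa using this
    have h4 := h3.add_const (L (c t))
    simpa using h4
  have hdiff : Differentiable ℝ (fun s => L (c s)) := fun t => (hder t).differentiableAt
  have h1 := is_const_of_deriv_eq_zero hdiff (fun t => (hder t).deriv) a 0
  have h2 : c 0 = u := by rw [hc]; simp
  simp only [h2] at h1
  exact h1

end

theorem main (E : Type*) [NormedAddCommGroup E] [InnerProductSpace ℝ E] :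
    Pool.Agent.Y294.FO.S_CONST E := by
  intro hfin L hL u u' hu hu'
  have hfd : FiniteDimensional ℝ E := FiniteDimensional.of_finrank_pos (by omega)
  set α : ℝ := ⟪u, u'⟫ with hα
  set v : E := u' - α • u with hv
  have huu : ⟪u, u⟫ = 1 := by rw [real_inner_self_eq_norm_sq, hu, one_pow]
  have huv : ⟪u, v⟫ = 0 := by
    rw [hv, inner_sub_right, inner_smul_right, huu, mul_one, ← hα, sub_self]
  have hu'v : u' = α • u + v := by rw [hv]; module
  have hnv : α ^ 2 + ‖v‖ ^ 2 = 1 := by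
    have h1 : ‖u'‖ ^ 2 = α ^ 2 + ‖v‖ ^ 2 := by
      rw [hu'v, norm_add_sq_real, inner_smul_left, huv, norm_smul, hu, Real.norm_eq_abs, mul_one,
        sq_abs, mul_zero, mul_zero, add_zero]
    rw [← h1, hu', one_pow]
  by_cases hv0 : v = 0
  · rw [hv0, norm_zero] at hnv
    have h1 : (α - 1) * (α + 1) = 0 := by linarith [hnv]
    rcases mul_eq_zero.1 h1 with h2 | h2
    · have h3 : α = 1 := by linarith
      rw [hu'v, hv0, h3, one_smul, add_zero]
    · have h3 : α = -1 := by linarith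
      -- choose an orthogonal unit vector
      obtain ⟨w, hw, huw⟩ : ∃ w : E, ‖w‖ = 1 ∧ ⟪u, w⟫ = 0 := by
        have h4 : (ℝ ∙ u)ᗮ ≠ ⊥ := by
          intro h5
          rw [Submodule.orthogonal_eq_bot_iff] at h5
          have h6 : Module.finrank ℝ (ℝ ∙ u) = Module.finrank ℝ E := by
            rw [h5, finrank_top]
          have h7 : Module.finrank ℝ (ℝ ∙ u) ≤ 1 := by
            refine (finrank_span_le_card ({u} : Set E)).trans ?_
            simp
          omega
        obtain ⟨w, hw, hw0⟩ := Submodule.exists_mem_ne_zero_of_ne_bot h4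
        have h5 : ‖w‖ ≠ 0 := norm_ne_zero_iff.2 hw0
        refine ⟨‖w‖⁻¹ • w, ?_, ?_⟩
        · rw [norm_smul, norm_inv, norm_norm, inv_mul_cancel₀ h5]
        · rw [inner_smul_right, Submodule.mem_orthogonal_singleton_iff_inner_right.1 hw, mul_zero]
      have h4 := circ L hL u w hu hw huw Real.pi
      rw [Real.cos_pi, Real.sin_pi, zero_smul, add_zero] at h4
      rw [hu'v, hv0, h3, add_zero, h4]
  · have h5 : ‖v‖ ≠ 0 := norm_ne_zero_iff.2 hv0
    have hw : ‖‖v‖⁻¹ • v‖ = 1 := by rw [norm_smul, norm_inv, norm_norm, inv_mul_cancel₀ h5]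
    have huw : ⟪u, ‖v‖⁻¹ • v⟫ = 0 := by rw [inner_smul_right, huv, mul_zero]
    have h4 := circ L hL u _ hu hw huw (Real.arccos α)
    have h6 : Real.cos (Real.arccos α) = α :=
      Real.cos_arccos (by nlinarith [sq_nonneg ‖v‖]) (by nlinarith [sq_nonneg ‖v‖])
    have h7 : Real.sin (Real.arccos α) = ‖v‖ := by
      rw [Real.sin_arccos]
      have : 1 - α ^ 2 = ‖v‖ ^ 2 := by linarith
      rw [this, Real.sqrt_sq (norm_nonneg _)]
    rw [h6, h7, smul_smul, mul_inv_cancel₀ h5, one_smul, ← hu'v] at h4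
    exact h4.symm

end Pool.Agent.Y908.FO.CONST
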