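import Pool.Agent.Y294.FO.Stm

/-! FO-CONV : no ray grazes the boundary of a convex region (helper908). -/

set_option autoImplicit false

open Set Metric Filter Topology
open scoped RealInnerProductSpace

namespace Pool.Agent.Y908.FO.CONV

open Pool.Agent.Y294.FO

theorem main (E : Type*) [NormedAddCommGroup E] [InnerProductSpace ℝ E] :
    Pool.Agent.Y294.FO.S_CONV E := by
  intro Ω ν r hR hc p v τ hτ hq hseg
  set q := p + τ • v with hqd
  set n := ν q with hnd
  have hn : ‖n‖ = 1 := hR.unit q hq
  have hnn : ⟪n, n⟫ = 1 := by rw [real_inner_self_eq_norm_sq, hn, one_pow]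
  have hqO : q ∉ Ω := by
    intro h
    have h1 : q ∈ Ω ∩ frontier Ω := ⟨h, hq⟩
    rw [hR.isOpen.inter_frontier_eq] at h1
    exact h1
  have hz : ∀ t : ℝ, 0 < t → t < τ → q - t • v ∈ Ω := by
    intro t ht0 ht1
    apply hseg
    refine ⟨t / τ, 1 - t / τ, div_pos ht0 hτ, by
      rw [sub_pos, div_lt_one hτ]; exact ht1, by ring, ?_⟩
    have h1 : t / τ * τ = t := div_mul_cancel₀ t hτ.ne'
    calc (t / τ) • p + (1 - t / τ) • (p + τ • v) = p + (τ - t / τ * τ) • v := by module
      _ = p + (τ - t) • v := by rw [h1]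
      _ = p + τ • v - t • v := by module
  have hr := hR.r_pos
  have hA : 0 ≤ ‖v‖ ^ 2 := by positivity
  rcases lt_trichotomy (0 : ℝ) ⟪n, v⟫ with h0 | h0 | h0
  · exact h0
  · exfalso
    have hvn : ⟪v, n⟫ = 0 := by rw [real_inner_comm]; exact h0.symm
    have hzO := hz (τ / 2) (by linarith) (by linarith)
    obtain ⟨e', he', hball⟩ := Metric.isOpen_iff.1 hR.isOpen _ hzO
    set t := τ / 2 with ht
    have ht0 : 0 < t := by rw [ht]; linarith
    set e := e' / 2 with he
    have he0 : 0 < e := by rw [he]; linarith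
    have hzn : (q - t • v) + e • n ∈ Ω := by
      apply hball
      rw [Metric.mem_ball, dist_eq_norm]
      have : (q - t • v) + e • n - (q - t • v) = e • n := by module
      rw [this, norm_smul, hn, mul_one, Real.norm_eq_abs, abs_of_pos he0]
      rw [he]; linarith
    set D := t ^ 2 * ‖v‖ ^ 2 + e ^ 2 with hD
    have hDpos : 0 < D := by positivity
    set s := r * e / D with hs
    have hs0 : 0 < s := by positivity
    have hsD : s * D = r * e := div_mul_cancel₀ _ hDpos.ne'
    have hw : q + (s * t) • v - (s * e) • n ∈ Ω := by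
      apply hR.inner q hq
      rw [Metric.mem_ball, dist_eq_norm]
      have h1 : q + (s * t) • v - (s * e) • n - (q - r • ν q) = (s * t) • v + (r - s * e) • n := by
        rw [hnd]; module
      rw [h1]
      apply lt_of_pow_lt_pow_left₀ 2 hr.le
      rw [norm_add_sq_real, inner_smul_left, inner_smul_right, hvn, norm_smul, norm_smul, hn,
        Real.norm_eq_abs, Real.norm_eq_abs, mul_pow, sq_abs, mul_one, sq_abs, mul_zero, mul_zero,
        mul_zero, add_zero]
      have h2 : (s * t) ^ 2 * ‖v‖ ^ 2 + (r - s * e) ^ 2 = r ^ 2 + s * (s * D) - 2 * r * e * s := by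
        rw [hD]; ring
      rw [h2, hsD]
      have h3 : 0 < s * (r * e) := by positivity
      nlinarith
    have h4 : q ∈ Ω := by
      have h5 := hc hw hzn (show (0 : ℝ) ≤ 1 / (1 + s) by positivity)
        (show (0 : ℝ) ≤ s / (1 + s) by positivity) (by field_simp)
      have h6 : (1 / (1 + s)) • (q + (s * t) • v - (s * e) • n) +
          (s / (1 + s)) • ((q - t • v) + e • n) = q := by
        have h7 : (1 / (1 + s)) + s / (1 + s) = 1 := by field_simp
        have h8 : (1 / (1 + s)) * s = s / (1 + s) := by field_simp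
        calc (1 / (1 + s)) • (q + (s * t) • v - (s * e) • n) +
              (s / (1 + s)) • ((q - t • v) + e • n) =
            ((1 / (1 + s)) + s / (1 + s)) • q +
              (((1 / (1 + s)) * s - s / (1 + s)) * t) • v -
              (((1 / (1 + s)) * s - s / (1 + s)) * e) • n := by module
          _ = q := by
            rw [h7, h8, sub_self, zero_mul, zero_mul, zero_smul, zero_smul, one_smul, add_zero,
              sub_zero]
      rw [h6] at h5
      exact h5
    exact hqO h4
  · exfalso
    set B := -(2 * r * ⟪n, v⟫) with hB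
    have hBpos : 0 < B := by
      rw [hB, neg_pos]
      exact mul_neg_of_pos_of_neg (by linarith) h0
    set t := min (τ / 2) (B / (‖v‖ ^ 2 + 1)) with ht
    have ht0 : 0 < t := lt_min (by linarith) (by positivity)
    have ht1 : t < τ := lt_of_le_of_lt (min_le_left _ _) (by linarith)
    have ht2 : t * (‖v‖ ^ 2 + 1) ≤ B := by
      have := min_le_right (τ / 2) (B / (‖v‖ ^ 2 + 1))
      rw [← ht] at this
      rwa [le_div_iff₀ (by positivity)] at this
    have h1 := hz t ht0 ht1
    refine Set.disjoint_left.1 (hR.outer q hq) ?_ h1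
    rw [Metric.mem_ball, dist_eq_norm]
    have h2 : q - t • v - (q + r • ν q) = -(t • v + r • n) := by
      rw [hnd]; module
    rw [h2, norm_neg]
    apply lt_of_pow_lt_pow_left₀ 2 hr.le
    rw [norm_add_sq_real, inner_smul_left, inner_smul_right, norm_smul, norm_smul, hn,
      Real.norm_eq_abs, Real.norm_eq_abs, mul_pow, sq_abs, mul_one, sq_abs, real_inner_comm]
    simp only [conj_trivial]
    have h3 : t ^ 2 * ‖v‖ ^ 2 + 2 * (t * (r * ⟪n, v⟫)) + r ^ 2 =
        r ^ 2 + t * (t * (‖v‖ ^ 2 + 1) - B) - t ^ 2 := by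
      rw [hB]; ring
    rw [h3]
    nlinarith [mul_nonneg ht0.le (sub_nonneg.2 ht2), pow_pos ht0 2]

end Pool.Agent.Y908.FO.CONV
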