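import Pool.Agent.Y294.FO.Stm

/-! FO-STAR : a region with a continuous first hit function is star-shaped (helper908). -/

set_option autoImplicit false

open Set Metric Filter Topology
open scoped RealInnerProductSpace

namespace Pool.Agent.Y908.FO.STAR

open Pool.Agent.Y294.FO

theorem main (E : Type*) [NormedAddCommGroup E] [InnerProductSpace ℝ E] :
    Pool.Agent.Y294.FO.S_STAR E := by
  intro Ω hO hcon x hx τ hτ hcont y hy hyx
  obtain ⟨e, he, hball⟩ := Metric.isOpen_iff.1 hO x hx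
  have hfr : ∀ z ∈ frontier Ω, z ∉ Ω := by
    intro z hz h
    have h1 : z ∈ Ω ∩ frontier Ω := ⟨h, hz⟩
    rw [hO.inter_frontier_eq] at h1
    exact h1
  have hτe : ∀ u : E, ‖u‖ = 1 → e ≤ τ u := by
    intro u hu
    by_contra hlt
    push Not at hlt
    refine hfr _ (hτ u hu).2.1 (hball ?_)
    rw [Metric.mem_ball, dist_eq_norm, add_sub_cancel_left, norm_smul, hu, mul_one,
      Real.norm_eq_abs, abs_of_pos (hτ u hu).1]
    exact hlt
  set d : E → E := fun z => ‖z - x‖⁻¹ • (z - x) with hd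
  have hdu : ∀ z, z ≠ x → ‖d z‖ = 1 := by
    intro z hz
    have h1 : ‖z - x‖ ≠ 0 := norm_ne_zero_iff.2 (sub_ne_zero.2 hz)
    rw [hd]
    simp only
    rw [norm_smul, norm_inv, norm_norm, inv_mul_cancel₀ h1]
  have hdz : ∀ z, z ≠ x → x + ‖z - x‖ • d z = z := by
    intro z hz
    have h1 : ‖z - x‖ ≠ 0 := norm_ne_zero_iff.2 (sub_ne_zero.2 hz)
    rw [hd]
    simp only
    rw [smul_smul, mul_inv_cancel₀ h1, one_smul, add_sub_cancel]
  have hdc : ContinuousOn d {x}ᶜ := by
    rw [hd]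
    refine ContinuousOn.smul (ContinuousOn.inv₀ ?_ ?_) ?_
    · exact (continuous_norm.comp (continuous_id.sub continuous_const)).continuousOn
    · intro z hz
      exact norm_ne_zero_iff.2 (sub_ne_zero.2 hz)
    · exact (continuous_id.sub continuous_const).continuousOn
  set φ : E → ℝ := fun z => τ (d z) - ‖z - x‖ with hφ
  have hφc : ContinuousOn φ {x}ᶜ := by
    refine ContinuousOn.sub (hcont.comp hdc ?_) ?_
    · intro z hz
      rw [mem_sphere_zero_iff_norm]
      exact hdu z hz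
    · exact (continuous_norm.comp (continuous_id.sub continuous_const)).continuousOn
  have hφ0 : ∀ z ∈ Ω, z ≠ x → φ z ≠ 0 := by
    intro z hz hzx h0
    have h1 : τ (d z) = ‖z - x‖ := sub_eq_zero.1 h0
    have h2 := (hτ (d z) (hdu z hzx)).2.1
    rw [h1, hdz z hzx] at h2
    exact hfr z h2 hz
  have hx' : IsOpen ({x}ᶜ : Set E) := isOpen_compl_singleton
  have hA : IsOpen (ball x e ∪ ({x}ᶜ ∩ φ ⁻¹' Ioi 0)) :=
    isOpen_ball.union (hφc.isOpen_inter_preimage hx' isOpen_Ioi)
  have hB : IsOpen ({x}ᶜ ∩ φ ⁻¹' Iio 0) := hφc.isOpen_inter_preimage hx' isOpen_Iio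
  have hcov : Ω ⊆ (ball x e ∪ ({x}ᶜ ∩ φ ⁻¹' Ioi 0)) ∪ ({x}ᶜ ∩ φ ⁻¹' Iio 0) := by
    intro z hz
    by_cases hzx : z = x
    · left; left
      rw [hzx]
      exact mem_ball_self he
    · rcases lt_or_gt_of_ne (hφ0 z hz hzx) with h1 | h1
      · right
        exact ⟨hzx, h1⟩
      · left; right
        exact ⟨hzx, h1⟩
  have hpos : 0 < φ y := by
    rcases lt_or_gt_of_ne (hφ0 y hy hyx) with h1 | h1
    · exfalso
      obtain ⟨z, hz, hzA, hzB⟩ := hcon.isPreconnected _ _ hA hB hcov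
        ⟨x, hx, Or.inl (mem_ball_self he)⟩ ⟨y, hy, hyx, h1⟩
      rcases hzA with hzA | hzA
      · have h2 := hτe (d z) (hdu z hzB.1)
        rw [Metric.mem_ball, dist_eq_norm] at hzA
        have h3 : φ z < 0 := hzB.2
        have h4 : φ z = τ (d z) - ‖z - x‖ := rfl
        linarith
      · have h3 : φ z < 0 := hzB.2
        have h4 : 0 < φ z := hzA.2
        linarith
    · exact h1
  have h4 : φ y = τ (d y) - ‖y - x‖ := rfl
  have h5 : ‖y - x‖ < τ (d y) := by linarith
  exact h5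

end Pool.Agent.Y908.FO.STAR
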